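import Pool.Agent.H26.AS.Main
import Pool.Agent.H24.LVP.RES
import Pool.Agent.H24.LVP.RES2

/-!
# The large values of Weyl sums down to the square root barrier: final form (helper26)
-/

set_option autoImplicit false

open Finset MeasureTheory

namespace Pool.Agent.H26.AS

open Pool.Agent.H24.CL Pool.Agent.H24.LV Pool.Agent.H24.LVP Pool.Agent.H24.CLK
open Pool.Agent.H67.CLV

/-- the final statement in the notation of the library -/
theorem final (hPF : T_PF) (hMP : T_MP) (hFI : Pool.Agent.H79.HF.T_FIg fun L => L)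
    (hLY : M_LY) (hAS : M_AS) : ∀ k : ℕ, 3 ≤ k →
    Summable (fun q : ℕ => st k (q + 1)) ∧
    Integrable (fun γ : Fin k → ℝ => ‖vI γ‖ ^ (k * (k + 1))) ∧
    ∃ c : ℝ, 0 < c ∧ ∀ δ : ℝ, 0 < δ → ∃ C : ℝ, ∀ (N : ℕ) (t : ℝ), 1 ≤ N →
      Real.sqrt N * Real.exp (Real.log N ^ (1 / 2 + δ)) ≤ t → t ≤ N →
      (volume : Measure (X k)).real {a : X k | t ≤ ‖f1 N a‖} * t ^ (k * (k + 1)) ≤
        C * (N : ℝ) ^ (k * (k + 1) / 2) *
          (t / N) ^ (c * (Real.log (t / Real.sqrt N) / Real.log N) ^ 2) ∧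
      |(∫ a in {a : X k | t ≤ ‖f1 N a‖}, ‖f1 N a‖ ^ (k * (k + 1))) -
        (∑' q : ℕ, st k (q + 1)) * (∫ γ : Fin k → ℝ, ‖vI γ‖ ^ (k * (k + 1))) *
          (N : ℝ) ^ (k * (k + 1) / 2)| ≤
        C * (N : ℝ) ^ (k * (k + 1) / 2) *
          (t / N) ^ (c * (Real.log (t / Real.sqrt N) / Real.log N) ^ 2) := by
  intro k hk
  have hd := KN_dbl k
  have hKd : k * (k + 1) / 2 = KN k := rfl
  obtain ⟨hs, hi, -⟩ := hAS k hk
  obtain ⟨c, hc, H⟩ := pf_MAIN hFI hLY hAS k hk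
  rw [hd] at hi
  refine ⟨hs, hi, c, hc, fun δ hδ => ?_⟩
  obtain ⟨C, hC⟩ := H δ hδ
  refine ⟨C, fun N t hN h1 h2 => ?_⟩
  obtain ⟨h3, h4⟩ := hC N t hN h1 h2
  rw [level_eq hPF hMP, level_int hPF hMP, hKd, ← hd]
  unfold rho pos at h3 h4
  refine ⟨h3, ?_⟩
  rw [mul_comm ((N : ℝ) ^ KN k) _] at h4
  exact h4

end Pool.Agent.H26.AS
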