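import Mathlib

/-!
# The asymptotic formula close to the square root barrier: elementary estimates (helper26)
-/

set_option autoImplicit false

namespace Pool.Agent.H26.AS

/-- the loss of a logarithm is absorbed -/
theorem absorb (a δ : ℝ) (ha : 0 < a) (hδ : 0 < δ) : ∃ C : ℝ, 0 ≤ C ∧ ∀ L : ℝ, 0 ≤ L →
    (1 + L) ^ (1 / 2 : ℝ) * Real.exp (-(a * L ^ (2 * δ))) ≤ C := by
  obtain ⟨n, hn⟩ := exists_nat_ge (1 / (2 * δ))
  refine ⟨2 + 2 * (n.factorial / a ^ n), by positivity, fun L hL => ?_⟩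
  have h1 : (1 + L) ^ (1 / 2 : ℝ) ≤ 1 + L := by
    calc (1 + L) ^ (1 / 2 : ℝ) ≤ (1 + L) ^ (1 : ℝ) :=
          Real.rpow_le_rpow_of_exponent_le (by linarith) (by norm_num)
      _ = 1 + L := Real.rpow_one _
  have hE0 : 0 < Real.exp (-(a * L ^ (2 * δ))) := Real.exp_pos _
  have hE1 : Real.exp (-(a * L ^ (2 * δ))) ≤ 1 := by
    apply Real.exp_le_one_iff.mpr
    have : 0 ≤ a * L ^ (2 * δ) := by positivity
    linarith
  have hF : 0 ≤ 2 * ((n.factorial : ℝ) / a ^ n) := by positivity
  rcases le_or_gt L 1 with h | h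
  · calc (1 + L) ^ (1 / 2 : ℝ) * Real.exp (-(a * L ^ (2 * δ))) ≤ (1 + L) * 1 :=
          mul_le_mul h1 hE1 hE0.le (by linarith)
      _ ≤ 2 + 2 * (n.factorial / a ^ n) := by linarith
  · set u : ℝ := L ^ (2 * δ) with hu
    have hu1 : 1 ≤ u := Real.one_le_rpow h.le (by positivity)
    have hu0 : 0 < u := by linarith
    have hLu : L ≤ u ^ n := by
      calc L = u ^ (1 / (2 * δ)) := by
            rw [hu, ← Real.rpow_mul hL, mul_one_div_cancel (by positivity), Real.rpow_one]
        _ ≤ u ^ (n : ℝ) := Real.rpow_le_rpow_of_exponent_le hu1 hn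
        _ = u ^ n := Real.rpow_natCast _ _
    have h2 := Real.pow_div_factorial_le_exp (a * u) (by positivity) n
    have h3 : u ^ n ≤ n.factorial / a ^ n * Real.exp (a * u) := by
      rw [div_le_iff₀ (by positivity), mul_pow] at h2
      rw [div_mul_eq_mul_div, le_div_iff₀ (by positivity)]
      linarith
    have h4 : u ^ n * Real.exp (-(a * u)) ≤ n.factorial / a ^ n := by
      calc u ^ n * Real.exp (-(a * u)) ≤
            (n.factorial / a ^ n * Real.exp (a * u)) * Real.exp (-(a * u)) :=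
            mul_le_mul_of_nonneg_right h3 (Real.exp_pos _).le
        _ = n.factorial / a ^ n * (Real.exp (a * u) * Real.exp (-(a * u))) := by ring
        _ = n.factorial / a ^ n := by rw [← Real.exp_add, add_neg_cancel, Real.exp_zero, mul_one]
    calc (1 + L) ^ (1 / 2 : ℝ) * Real.exp (-(a * u)) ≤ (2 * u ^ n) * Real.exp (-(a * u)) :=
          mul_le_mul_of_nonneg_right (by linarith) (Real.exp_pos _).le
      _ = 2 * (u ^ n * Real.exp (-(a * u))) := by ring
      _ ≤ 2 * (n.factorial / a ^ n) := by linarith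
      _ ≤ 2 + 2 * (n.factorial / a ^ n) := by linarith

/-- the position `x = log (t / √N) / log N` of `t` -/
noncomputable def pos (N : ℕ) (t : ℝ) : ℝ := Real.log (t / Real.sqrt N) / Real.log N

/-- the quality of the error term -/
noncomputable def rho (c : ℝ) (N : ℕ) (t : ℝ) : ℝ := (t / N) ^ (c * pos N t ^ 2)

/-- the position in terms of the logarithm of `t` -/
theorem pos_facts (N : ℕ) (t : ℝ) (hN : 2 ≤ N) (h1 : Real.sqrt N ≤ t) (h2 : t ≤ N) :
    0 ≤ pos N t ∧ pos N t ≤ 1 / 2 ∧ Real.log t = (1 / 2 + pos N t) * Real.log N ∧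
      Real.log (t ^ 2 / N) = 2 * pos N t * Real.log N ∧
      Real.log (t / N) = -((1 / 2 - pos N t) * Real.log N) := by
  have hN0 : (0 : ℝ) < N := by
    have : (2 : ℝ) ≤ N := by exact_mod_cast hN
    linarith
  have hN1 : (1 : ℝ) < N := by
    have : (2 : ℝ) ≤ N := by exact_mod_cast hN
    linarith
  have hL : 0 < Real.log N := Real.log_pos hN1
  have hs0 : 0 < Real.sqrt N := Real.sqrt_pos.mpr hN0
  have ht0 : 0 < t := lt_of_lt_of_le hs0 h1
  have hls : Real.log (Real.sqrt N) = Real.log N / 2 := Real.log_sqrt hN0.le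
  have hp : pos N t * Real.log N = Real.log t - Real.log N / 2 := by
    unfold pos
    rw [div_mul_cancel₀ _ hL.ne', Real.log_div ht0.ne' hs0.ne', hls]
  have hlt : Real.log N / 2 ≤ Real.log t := by
    rw [← hls]
    exact Real.log_le_log hs0 h1
  have hlt2 : Real.log t ≤ Real.log N := Real.log_le_log ht0 h2
  refine ⟨?_, ?_, ?_, ?_, ?_⟩
  · by_contra h
    push Not at h
    have : pos N t * Real.log N < 0 := mul_neg_of_neg_of_pos h hL
    linarith
  · by_contra h
    push Not at h
    have : 1 / 2 * Real.log N < pos N t * Real.log N := mul_lt_mul_of_pos_right h hL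
    linarith
  · rw [add_mul, hp]
    ring
  · rw [Real.log_div (by positivity) hN0.ne', Real.log_pow, mul_assoc, hp]
    push_cast
    ring
  · rw [Real.log_div ht0.ne' hN0.ne', sub_mul, hp]
    ring

/-- lower bounds for the error term -/
theorem rho_lb (c : ℝ) (hc : 0 ≤ c) (N : ℕ) (t : ℝ) (hN : 2 ≤ N) (h1 : Real.sqrt N ≤ t)
    (h2 : t ≤ N) :
    Real.exp (-(c / 8 * Real.log N)) ≤ rho c N t ∧
      Real.exp (-(c / 2 * (pos N t ^ 2 * Real.log N))) ≤ rho c N t := by
  obtain ⟨f1, f2, _, _, f5⟩ := pos_facts N t hN h1 h2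
  have hN2 : (2 : ℝ) ≤ N := by exact_mod_cast hN
  have hN0 : (0 : ℝ) < N := by linarith
  have hL : 0 < Real.log N := Real.log_pos (by linarith)
  have ht0 : 0 < t := lt_of_lt_of_le (Real.sqrt_pos.mpr hN0) h1
  have hr : rho c N t = Real.exp (-(c * pos N t ^ 2 * (1 / 2 - pos N t) * Real.log N)) := by
    unfold rho
    rw [Real.rpow_def_of_pos (by positivity), f5]
    congr 1
    ring
  rw [hr]
  have hx2 : pos N t ^ 2 ≤ 1 / 4 := by nlinarith
  have hx20 : 0 ≤ pos N t ^ 2 := sq_nonneg _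
  constructor
  · apply Real.exp_le_exp.mpr
    apply neg_le_neg
    have h3 : pos N t ^ 2 * (1 / 2 - pos N t) ≤ 1 / 4 * (1 / 2) :=
      mul_le_mul hx2 (by linarith) (by linarith) (by norm_num)
    calc c * pos N t ^ 2 * (1 / 2 - pos N t) * Real.log N =
          (c * Real.log N) * (pos N t ^ 2 * (1 / 2 - pos N t)) := by ring
      _ ≤ (c * Real.log N) * (1 / 4 * (1 / 2)) :=
          mul_le_mul_of_nonneg_left h3 (by positivity)
      _ = c / 8 * Real.log N := by ring
  · apply Real.exp_le_exp.mpr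
    apply neg_le_neg
    calc c * pos N t ^ 2 * (1 / 2 - pos N t) * Real.log N =
          (c * pos N t ^ 2 * Real.log N) * (1 / 2 - pos N t) := by ring
      _ ≤ (c * pos N t ^ 2 * Real.log N) * (1 / 2) :=
          mul_le_mul_of_nonneg_left (by linarith) (by positivity)
      _ = c / 2 * (pos N t ^ 2 * Real.log N) := by ring

/-- small `N` -/
theorem rho_small (c : ℝ) (hc : 0 ≤ c) (N : ℕ) (t : ℝ) (hN1 : 1 ≤ N) (hN : N < 4)
    (h1 : Real.sqrt N ≤ t) (h2 : t ≤ N) : Real.exp (-c) ≤ rho c N t := by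
  rcases Nat.lt_or_ge N 2 with h | h
  · have hN1' : N = 1 := by omega
    subst hN1'
    unfold rho pos
    simp only [Nat.cast_one, Real.log_one, div_zero, ne_eq, OfNat.ofNat_ne_zero,
      not_false_eq_true, zero_pow, mul_zero, Real.rpow_zero]
    exact Real.exp_le_one_iff.mpr (by linarith)
  · refine le_trans ?_ (rho_lb c hc N t h h1 h2).1
    apply Real.exp_le_exp.mpr
    have hN3 : (N : ℝ) ≤ 3 := by
      have : N ≤ 3 := by omega
      exact_mod_cast this
    have hN2 : (2 : ℝ) ≤ N := by exact_mod_cast h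
    have hl : Real.log N ≤ 2 := by
      have := Real.log_le_sub_one_of_pos (show (0 : ℝ) < N by linarith)
      linarith
    have : c / 8 * Real.log N ≤ c / 8 * 2 := mul_le_mul_of_nonneg_left hl (by positivity)
    linarith

end Pool.Agent.H26.AS
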