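import Pool.Agent.H26.AS.ASG
import Pool.Agent.H26.AS.Num

/-!
# The large values of Weyl sums down to the square root barrier (helper26)
-/

set_option autoImplicit false

open Finset MeasureTheory

namespace Pool.Agent.H26.AS

open Pool.Agent.H24.CL Pool.Agent.H24.LV Pool.Agent.H69.LVP Pool.Agent.H79.HF

/-- The level sets and the moment over the level sets, for all levels slightly above the square
root of `N`. -/
def T_MAIN : Prop :=
  ∀ k : ℕ, 3 ≤ k → ∃ c : ℝ, 0 < c ∧ ∀ δ : ℝ, 0 < δ → ∃ C : ℝ, ∀ (N : ℕ) (t : ℝ), 1 ≤ N →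
    Real.sqrt N * Real.exp (Real.log N ^ (1 / 2 + δ)) ≤ t → t ≤ N →
    volume.real {a : X k | t ≤ ‖f N a‖} * t ^ (2 * KN k) ≤
      C * (N : ℝ) ^ (KN k) * rho c N t ∧
    |(∫ a in {a : X k | t ≤ ‖f N a‖}, ‖f N a‖ ^ (2 * KN k)) -
      (N : ℝ) ^ (KN k) * ((∑' q : ℕ, st k (q + 1)) * ∫ γ : Fin k → ℝ, ‖vI γ‖ ^ (2 * KN k))| ≤
        C * (N : ℝ) ^ (KN k) * rho c N t

theorem pf_MAIN (hFI : T_FIg fun L => L) (hLY : M_LY) (hAS : M_AS) : T_MAIN := by
  intro k hk
  set K : ℕ := KN k with hK
  obtain ⟨c₀, C₀, hc₀, hC₀, HV⟩ := levelg (fun L => L) gain_id hFI k hk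
  obtain ⟨cA, CA, hcA, HA⟩ := pf_ASG hFI hAS k hk
  obtain ⟨c₁, C₁, hc₁, H1⟩ := hLY k hk (1 / 4) (by norm_num)
  obtain ⟨-, -, hAS'⟩ := hAS k hk
  obtain ⟨c₂, C₂, hc₂, H2⟩ := hAS' (1 / 4) (by norm_num) (by norm_num)
  set SJ : ℝ := (∑' q : ℕ, st k (q + 1)) * ∫ γ : Fin k → ℝ, ‖vI γ‖ ^ (2 * K) with hSJ
  set c : ℝ := min (min c₀ cA) (min c₁ c₂) with hc
  have hc1 : 0 < c := lt_min (lt_min hc₀ hcA) (lt_min hc₁ hc₂)
  have hcc₀ : c ≤ c₀ := (min_le_left _ _).trans (min_le_left _ _)
  have hccA : c ≤ cA := (min_le_left _ _).trans (min_le_right _ _)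
  have hcc₁ : c ≤ c₁ := (min_le_right _ _).trans (min_le_left _ _)
  have hcc₂ : c ≤ c₂ := (min_le_right _ _).trans (min_le_right _ _)
  refine ⟨c, hc1, fun δ hδ => ?_⟩
  obtain ⟨D, hD, HD⟩ := absorb (2 * cA) δ (by positivity) hδ
  set B : ℝ := (3 ^ K + |SJ|) * Real.exp c with hB
  have hB0 : 0 ≤ B := by positivity
  have hA0 : 0 ≤ |CA| * D := by positivity
  have habs1 : 0 ≤ |C₁| := abs_nonneg _
  have habs2 : 0 ≤ |C₂| := abs_nonneg _
  refine ⟨C₀ + |CA| * D + |C₁| + |C₂| + B, fun N t hN hlow hup => ?_⟩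
  have hN1 : (1 : ℝ) ≤ N := by exact_mod_cast hN
  have hN0 : (0 : ℝ) < N := by linarith
  have hL0 : 0 ≤ Real.log N := Real.log_nonneg hN1
  have hNK : 0 < (N : ℝ) ^ K := by positivity
  have hs0 : 0 < Real.sqrt N := Real.sqrt_pos.mpr hN0
  have hst : Real.sqrt N ≤ t := by
    refine le_trans ?_ hlow
    apply le_mul_of_one_le_right hs0.le
    exact Real.one_le_exp (by positivity)
  have ht0 : 0 < t := lt_of_lt_of_le hs0 hst
  have hρ0 : 0 < rho c N t := Real.rpow_pos_of_pos (by positivity) _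
  have hi := int_f k N (2 * K)
  have hmf : Measurable fun a : X k => ‖f N a‖ := (cont_f k N).norm.measurable
  -- from one constant to the sum of all of them
  have hfin : ∀ E : ℝ, 0 ≤ E → E ≤ C₀ + |CA| * D + |C₁| + |C₂| + B →
      E * (N : ℝ) ^ K * rho c N t ≤
        (C₀ + |CA| * D + |C₁| + |C₂| + B) * (N : ℝ) ^ K * rho c N t := by
    intro E _ hE
    apply mul_le_mul_of_nonneg_right _ hρ0.le
    exact mul_le_mul_of_nonneg_right hE hNK.le
  rcases Nat.lt_or_ge N 4 with hN4 | hN4
  · -- small `N`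
    have hN3 : (N : ℝ) ≤ 3 := by
      have : N ≤ 3 := by omega
      exact_mod_cast this
    have hρs := rho_small c hc1.le N t hN hN4 hst hup
    have hE1 : 1 ≤ Real.exp c * rho c N t := by
      calc (1 : ℝ) = Real.exp c * Real.exp (-c) := by
            rw [← Real.exp_add, add_neg_cancel, Real.exp_zero]
        _ ≤ Real.exp c * rho c N t := mul_le_mul_of_nonneg_left hρs (Real.exp_pos _).le
    have h2 : (N : ℝ) ^ (2 * K) ≤ 3 ^ K * (N : ℝ) ^ K := by
      rw [two_mul, pow_add]
      exact mul_le_mul_of_nonneg_right (pow_le_pow_left₀ hN0.le hN3 K) hNK.le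
    have h4 : (3 ^ K + |SJ|) * (N : ℝ) ^ K ≤ B * (N : ℝ) ^ K * rho c N t := by
      calc (3 ^ K + |SJ|) * (N : ℝ) ^ K = (3 ^ K + |SJ|) * (N : ℝ) ^ K * 1 := by ring
        _ ≤ (3 ^ K + |SJ|) * (N : ℝ) ^ K * (Real.exp c * rho c N t) :=
            mul_le_mul_of_nonneg_left hE1 (by positivity)
        _ = B * (N : ℝ) ^ K * rho c N t := by rw [hB]; ring
    have h5 := hfin B hB0 (by linarith)
    constructor
    · have h6 : volume.real {a : X k | t ≤ ‖f N a‖} ≤ 1 :=
        (measureReal_mono (Set.subset_univ _)).trans (X_univ k).le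
      have h7 : t ^ (2 * K) ≤ (N : ℝ) ^ (2 * K) := pow_le_pow_left₀ ht0.le hup _
      have h8 : volume.real {a : X k | t ≤ ‖f N a‖} * t ^ (2 * K) ≤ 1 * (N : ℝ) ^ (2 * K) :=
        mul_le_mul h6 h7 (by positivity) (by norm_num)
      have h9 : 3 ^ K * (N : ℝ) ^ K ≤ (3 ^ K + |SJ|) * (N : ℝ) ^ K := by
        apply mul_le_mul_of_nonneg_right _ hNK.le
        linarith [abs_nonneg SJ]
      linarith
    · have h1 : ∫ a in {a : X k | t ≤ ‖f N a‖}, ‖f N a‖ ^ (2 * K) ≤ (N : ℝ) ^ (2 * K) := by
        calc ∫ a in {a : X k | t ≤ ‖f N a‖}, ‖f N a‖ ^ (2 * K) ≤ ∫ a : X k, ‖f N a‖ ^ (2 * K) :=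
              setIntegral_le_integral hi (Filter.Eventually.of_forall fun a => by positivity)
          _ ≤ ∫ _ : X k, (N : ℝ) ^ (2 * K) := by
              refine integral_mono hi (integrable_const _) fun a => ?_
              exact pow_le_pow_left₀ (norm_nonneg _) (norm_f_le N a) _
          _ = (N : ℝ) ^ (2 * K) := by rw [integral_const, X_univ, one_smul]
      have h0 : 0 ≤ ∫ a in {a : X k | t ≤ ‖f N a‖}, ‖f N a‖ ^ (2 * K) :=
        integral_nonneg fun a => by positivity
      have h3 : |(∫ a in {a : X k | t ≤ ‖f N a‖}, ‖f N a‖ ^ (2 * K)) - (N : ℝ) ^ K * SJ| ≤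
          (3 ^ K + |SJ|) * (N : ℝ) ^ K := by
        refine (abs_sub _ _).trans ?_
        rw [abs_of_nonneg h0, abs_mul, abs_of_pos hNK]
        linarith
      linarith
  · have hN2 : 2 ≤ N := by omega
    have hN4' : (4 : ℝ) ≤ N := by exact_mod_cast hN4
    have hL : 0 < Real.log N := Real.log_pos (by linarith)
    obtain ⟨f1, f2, f3, f4, f5⟩ := pos_facts N t hN2 hst hup
    obtain ⟨g1, g2⟩ := rho_lb c hc1.le N t hN2 hst hup
    set x : ℝ := pos N t with hx
    set L : ℝ := Real.log N with hLd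
    have hx2 : x ^ 2 ≤ 1 / 4 := by nlinarith
    have hx20 : 0 ≤ x ^ 2 := sq_nonneg _
    -- the error of the major arcs
    have hmaj : C₂ * (N : ℝ) ^ ((K : ℝ) - c₂) ≤ |C₂| * (N : ℝ) ^ K * rho c N t := by
      have h1 : (N : ℝ) ^ ((K : ℝ) - c₂) ≤ (N : ℝ) ^ K * rho c N t := by
        rw [Real.rpow_sub hN0, Real.rpow_natCast, div_eq_mul_inv, ← Real.rpow_neg hN0.le]
        apply mul_le_mul_of_nonneg_left _ hNK.le
        refine le_trans ?_ g1
        rw [Real.rpow_def_of_pos hN0]
        apply Real.exp_le_exp.mpr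
        rw [← hLd]
        have h2 : c / 8 * L ≤ c₂ * L := mul_le_mul_of_nonneg_right (by linarith) hL.le
        linarith
      calc C₂ * (N : ℝ) ^ ((K : ℝ) - c₂) ≤ |C₂| * (N : ℝ) ^ ((K : ℝ) - c₂) :=
            mul_le_mul_of_nonneg_right (le_abs_self _) (by positivity)
        _ ≤ |C₂| * ((N : ℝ) ^ K * rho c N t) := mul_le_mul_of_nonneg_left h1 habs2
        _ = |C₂| * (N : ℝ) ^ K * rho c N t := by ring
    rcases le_or_gt t ((N : ℝ) ^ (3 / 4 : ℝ)) with h34 | h34
    · have hst' : (N : ℝ) ^ (1 / 2 : ℝ) ≤ t := by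
        rw [← Real.sqrt_eq_rpow]
        exact hst
      have hℓ : Real.log (t ^ 2 / N) ^ 2 / L = 4 * (x ^ 2 * L) := by
        rw [f4]
        field_simp
        ring
      constructor
      · have h1 := HV N t hN4 hst' h34
        refine h1.trans ?_
        refine le_trans ?_ (hfin C₀ hC₀ (by linarith))
        apply mul_le_mul_of_nonneg_left _ (by positivity)
        refine le_trans ?_ g2
        apply Real.exp_le_exp.mpr
        apply neg_le_neg
        change c / 2 * (x ^ 2 * L) ≤ c₀ * Real.log (t ^ 2 / N) ^ 2 / L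
        rw [mul_div_assoc, hℓ]
        have h2 : c / 2 * (x ^ 2 * L) ≤ (4 * c₀) * (x ^ 2 * L) :=
          mul_le_mul_of_nonneg_right (by linarith) (by positivity)
        linarith
      · have h1 := HA N t hN hst' h34
        refine h1.trans ?_
        refine le_trans ?_ (hfin (|CA| * D) hA0 (by linarith))
        have h2 : L ^ (2 * δ) ≤ x ^ 2 * L := by
          have h3 : L ^ (1 / 2 + δ) ≤ x * L := by
            have h4 : Real.log (Real.sqrt N * Real.exp (L ^ (1 / 2 + δ))) ≤ Real.log t :=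
              Real.log_le_log (by positivity) hlow
            rw [Real.log_mul hs0.ne' (Real.exp_pos _).ne', Real.log_exp, Real.log_sqrt hN0.le,
              f3] at h4
            rw [← hLd] at h4
            linarith
          have h5 : (L ^ (1 / 2 + δ)) ^ 2 ≤ (x * L) ^ 2 :=
            pow_le_pow_left₀ (by positivity) h3 2
          have h6 : (L ^ (1 / 2 + δ)) ^ 2 = L ^ (2 * δ) * L := by
            rw [← Real.rpow_natCast, ← Real.rpow_mul hL.le]
            nth_rewrite 3 [← Real.rpow_one L]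
            rw [← Real.rpow_add hL]
            congr 1
            push_cast
            ring
          rw [h6] at h5
          have h7 : (x * L) ^ 2 = (x ^ 2 * L) * L := by ring
          rw [h7] at h5
          exact le_of_mul_le_mul_right h5 hL
        have h3 : (1 + L) ^ (1 / 2 : ℝ) * Real.exp (-(cA * Real.log (t ^ 2 / N) ^ 2 / L)) ≤
            D * rho c N t := by
          have h4 : Real.exp (-(cA * Real.log (t ^ 2 / N) ^ 2 / L)) =
              Real.exp (-(2 * cA * (x ^ 2 * L))) * Real.exp (-(2 * cA * (x ^ 2 * L))) := by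
            rw [← Real.exp_add, mul_div_assoc, hℓ]
            congr 1
            ring
          have h5 : Real.exp (-(2 * cA * (x ^ 2 * L))) ≤ Real.exp (-(2 * cA * L ^ (2 * δ))) := by
            apply Real.exp_le_exp.mpr
            apply neg_le_neg
            exact mul_le_mul_of_nonneg_left h2 (by positivity)
          have h6 : Real.exp (-(2 * cA * (x ^ 2 * L))) ≤ rho c N t := by
            refine le_trans ?_ g2
            apply Real.exp_le_exp.mpr
            apply neg_le_neg
            exact mul_le_mul_of_nonneg_right (by linarith) (by positivity)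
          have h7 : (1 + L) ^ (1 / 2 : ℝ) * Real.exp (-(2 * cA * (x ^ 2 * L))) ≤ D :=
            (mul_le_mul_of_nonneg_left h5 (by positivity)).trans (HD L hL.le)
          rw [h4]
          calc (1 + L) ^ (1 / 2 : ℝ) * (Real.exp (-(2 * cA * (x ^ 2 * L))) *
                Real.exp (-(2 * cA * (x ^ 2 * L)))) =
                ((1 + L) ^ (1 / 2 : ℝ) * Real.exp (-(2 * cA * (x ^ 2 * L)))) *
                  Real.exp (-(2 * cA * (x ^ 2 * L))) := by ring
            _ ≤ D * rho c N t := mul_le_mul h7 h6 (Real.exp_pos _).le hD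
        calc CA * (N : ℝ) ^ K * ((1 + L) ^ (1 / 2 : ℝ) *
              Real.exp (-(cA * Real.log (t ^ 2 / N) ^ 2 / L))) ≤
              |CA| * (N : ℝ) ^ K * ((1 + L) ^ (1 / 2 : ℝ) *
                Real.exp (-(cA * Real.log (t ^ 2 / N) ^ 2 / L))) := by
              apply mul_le_mul_of_nonneg_right _ (by positivity)
              exact mul_le_mul_of_nonneg_right (le_abs_self _) hNK.le
          _ ≤ |CA| * (N : ℝ) ^ K * (D * rho c N t) :=
              mul_le_mul_of_nonneg_left h3 (by positivity)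
          _ = |CA| * D * (N : ℝ) ^ K * rho c N t := by ring
    · have h34e : (1 / 2 + 1 / 4 : ℝ) = 3 / 4 := by norm_num
      have h34' : (N : ℝ) ^ (1 / 2 + 1 / 4 : ℝ) ≤ t := by
        rw [h34e]
        exact h34.le
      obtain ⟨h1, h2⟩ := H1 N t hN h34'
      have hr : (t / N) ^ c₁ ≤ rho c N t := by
        unfold rho
        apply Real.rpow_le_rpow_of_exponent_ge (by positivity) ((div_le_one hN0).mpr hup)
        rw [← hx]
        nlinarith
      have hr0 : 0 ≤ (t / N) ^ c₁ := by positivity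
      have h3 : C₁ * (N : ℝ) ^ K * (t / N) ^ c₁ ≤ |C₁| * (N : ℝ) ^ K * rho c N t := by
        calc C₁ * (N : ℝ) ^ K * (t / N) ^ c₁ ≤ |C₁| * (N : ℝ) ^ K * (t / N) ^ c₁ := by
              apply mul_le_mul_of_nonneg_right _ hr0
              exact mul_le_mul_of_nonneg_right (le_abs_self _) hNK.le
          _ ≤ |C₁| * (N : ℝ) ^ K * rho c N t := mul_le_mul_of_nonneg_left hr (by positivity)
      constructor
      · exact h1.trans (h3.trans (hfin |C₁| habs1 (by linarith)))
      · have h5 := H2 N hN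
        set S0 : Set (X k) := {a | t ≤ ‖f N a‖} with hS0
        set S1 : Set (X k) := {a | (N : ℝ) ^ (1 / 2 + 1 / 4 : ℝ) ≤ ‖f N a‖ ∧ ‖f N a‖ < t} with hS1
        set S2 : Set (X k) := {a | (N : ℝ) ^ (1 / 2 + 1 / 4 : ℝ) ≤ ‖f N a‖} with hS2
        have hm0 : MeasurableSet S0 := measurableSet_le measurable_const hmf
        have hm1 : MeasurableSet S1 :=
          (measurableSet_le measurable_const hmf).inter (measurableSet_lt hmf measurable_const)
        have hun : S2 = S0 ∪ S1 := by
          ext a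
          constructor
          · intro ha
            have ha' : (N : ℝ) ^ (1 / 2 + 1 / 4 : ℝ) ≤ ‖f N a‖ := ha
            by_cases h : ‖f N a‖ < t
            · exact Or.inr ⟨ha', h⟩
            · push Not at h
              exact Or.inl h
          · rintro (ha | ha)
            · have ha' : t ≤ ‖f N a‖ := ha
              exact h34'.trans ha'
            · exact ha.1
        have hdis : Disjoint S0 S1 := by
          rw [Set.disjoint_left]
          intro a ha hb
          have ha' : t ≤ ‖f N a‖ := ha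
          exact absurd hb.2 (not_lt.mpr ha')
        have h6 : ∫ a in S2, ‖f N a‖ ^ (2 * K) =
            (∫ a in S0, ‖f N a‖ ^ (2 * K)) + ∫ a in S1, ‖f N a‖ ^ (2 * K) := by
          rw [hun]
          exact setIntegral_union hdis hm1 hi.integrableOn hi.integrableOn
        have h7 : 0 ≤ ∫ a in S1, ‖f N a‖ ^ (2 * K) := integral_nonneg fun a => by positivity
        have h8 := (abs_le.mp (h5.trans hmaj)).1
        have h9 := (abs_le.mp (h5.trans hmaj)).2
        have h10 := h2.trans h3
        have h11 := hfin (|C₁| + |C₂|) (by positivity) (by linarith)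
        have h12 : (|C₁| + |C₂|) * (N : ℝ) ^ K * rho c N t =
            |C₁| * (N : ℝ) ^ K * rho c N t + |C₂| * (N : ℝ) ^ K * rho c N t := by ring
        have h13 : 0 ≤ |C₁| * (N : ℝ) ^ K * rho c N t := by positivity
        rw [h12] at h11
        rw [h6] at h8 h9
        rw [abs_le]
        constructor <;> linarith

end Pool.Agent.H26.AS
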